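import Pool.Agent.H15.FLC.Targets
import Pool.Agent.H40.FLX.EXX

/-!
Row HXX of the board fl2_modules (MP_c62aed_lc): few tuples of half clauses violate `H2`
(after Pool/Agent/H40/FLX/EXX.lean).
-/

set_option autoImplicit false

namespace Pool.Agent.H48.FLC

open Finset
open Pool.Agent.H15.FLC

theorem pf_HXX (hHLF : T_HLF) : T_HXX := by
  classical
  intro ε β n k m w d s₀ hε hβ hw hM hch hn
  set S : ℕ := Fintype.card (Half n k) with hS
  have hcard : Nat.card (Fin m → Half n k) = S ^ m := by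
    rw [Nat.card_eq_fintype_card, Fintype.card_fun, Fintype.card_fin]
  set ρ : ℝ := (β / 2) ^ k * (2 : ℝ) ^ (ε / 2 * k) with hρd
  have hρ0 : 0 ≤ ρ := by positivity
  have hb := Pool.Agent.H40.FLX.bad_count (G := Half n k)
    ((univ : Finset (Finset (Fin n) × (Fin n → Bool))).filter fun p => p.1.card ≤ w + k)
    (fun p c => c.1.1 ⊆ p.1 ∧ (c.1.1.filter fun i => p.2 i = c.2 i).card ≤ d) m s₀ ρ (by
      intro p hp
      have hAc : p.1.card ≤ w + k := (mem_filter.1 hp).2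
      have hAr : (p.1.card : ℝ) ≤ β * n := by
        refine le_trans ?_ hw
        exact_mod_cast hAc
      have h1 := hHLF β n k d p.1 p.2 hβ.le hAr
      rw [Nat.card_eq_fintype_card, Nat.card_eq_fintype_card, Fintype.card_subtype] at h1
      refine h1.trans ?_
      have h2 : (β / 2) ^ k * (∑ j ∈ range (d + 1), (k.choose j : ℝ)) ≤ ρ :=
        mul_le_mul_of_nonneg_left hch (by positivity)
      exact mul_le_mul_of_nonneg_right h2 (by positivity))
    ((univ : Finset (Fin m → Half n k)).filter fun H => ¬ H2 H w d s₀) (by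
      intro H he
      have h1 : ¬ H2 H w d s₀ := (mem_filter.1 he).2
      unfold H2 at h1
      push Not at h1
      obtain ⟨A, hA, x, hc⟩ := h1
      refine ⟨(A, x), mem_filter.2 ⟨mem_univ _, hA⟩, lt_of_lt_of_le hc (le_of_eq ?_)⟩
      unfold cntC
      congr 1)
  have hA : (((univ : Finset (Finset (Fin n) × (Fin n → Bool))).filter
      fun p => p.1.card ≤ w + k).card : ℝ) ≤ 2 ^ (2 * (n : ℝ)) := by
    have h1 : ((univ : Finset (Finset (Fin n) × (Fin n → Bool))).filter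
        fun p => p.1.card ≤ w + k).card ≤ 2 ^ (2 * n) := by
      refine le_trans (card_filter_le _ _) (le_of_eq ?_)
      rw [Finset.card_univ, Fintype.card_prod, Fintype.card_finset, Fintype.card_fun,
        Fintype.card_fin, Fintype.card_bool, ← pow_add]
      congr 1
      ring
    have h2 : (2 : ℝ) ^ (2 * (n : ℝ)) = ((2 ^ (2 * n) : ℕ) : ℝ) := by
      push_cast
      rw [← Real.rpow_natCast]
      push_cast
      rfl
    rw [h2]
    exact_mod_cast h1
  have hC : ((m.choose (s₀ + 1) : ℕ) : ℝ) ≤ (m : ℝ) ^ (s₀ + 1) := by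
    exact_mod_cast Nat.choose_le_pow m (s₀ + 1)
  have hmρ : (m : ℝ) * ρ ≤ (2 : ℝ) ^ (-(ε / 2 * k)) := by
    have h2 : (2 : ℝ) ^ ((1 - ε) * (k : ℝ)) = (2 : ℝ) ^ k * (2 : ℝ) ^ (-(ε * k)) := by
      rw [← Real.rpow_natCast 2 k, ← Real.rpow_add (by norm_num)]
      congr 1
      ring
    have h3 : (m : ℝ) * ρ = (m * β ^ k) * ((2 : ℝ) ^ (ε / 2 * k) / 2 ^ k) := by
      rw [hρd, div_pow]
      ring
    have h4 : (2 : ℝ) ^ k * (2 : ℝ) ^ (-(ε * k)) * ((2 : ℝ) ^ (ε / 2 * k) / 2 ^ k) =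
        (2 : ℝ) ^ (-(ε / 2 * k)) := by
      have h5 : (2 : ℝ) ^ (-(ε * k)) * (2 : ℝ) ^ (ε / 2 * k) = (2 : ℝ) ^ (-(ε / 2 * k)) := by
        rw [← Real.rpow_add (by norm_num)]
        congr 1
        ring
      rw [← h5]
      field_simp
    rw [h3, ← h4, ← h2]
    exact mul_le_mul_of_nonneg_right hM (by positivity)
  have hkey : (2 : ℝ) ^ ((n : ℝ) + 1) * (((univ : Finset (Finset (Fin n) × (Fin n → Bool))).filter
      fun p => p.1.card ≤ w + k).card * (m.choose (s₀ + 1)) * ρ ^ (s₀ + 1)) ≤ 1 := by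
    calc _ ≤ (2 : ℝ) ^ ((n : ℝ) + 1) * ((2 : ℝ) ^ (2 * (n : ℝ)) * (m : ℝ) ^ (s₀ + 1) *
          ρ ^ (s₀ + 1)) := by
          gcongr
      _ = (2 : ℝ) ^ ((n : ℝ) + 1) * ((2 : ℝ) ^ (2 * (n : ℝ)) * ((m : ℝ) * ρ) ^ (s₀ + 1)) := by
          rw [mul_pow]; ring
      _ ≤ (2 : ℝ) ^ ((n : ℝ) + 1) * ((2 : ℝ) ^ (2 * (n : ℝ)) *
          ((2 : ℝ) ^ (-(ε / 2 * k))) ^ (s₀ + 1)) := by
          gcongr
      _ = (2 : ℝ) ^ (3 * (n : ℝ) + 1 - ε / 2 * k * (s₀ + 1)) := by
          rw [← Real.rpow_natCast ((2 : ℝ) ^ (-(ε / 2 * k))), ← Real.rpow_mul (by norm_num),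
            ← Real.rpow_add (by norm_num), ← Real.rpow_add (by norm_num)]
          congr 1
          push_cast
          ring
      _ ≤ (2 : ℝ) ^ (0 : ℝ) := by
          apply Real.rpow_le_rpow_of_exponent_le (by norm_num)
          have : (0 : ℝ) ≤ n := Nat.cast_nonneg n
          linarith
      _ = 1 := Real.rpow_zero 2
  have hnc : Nat.card {H : Fin m → Half n k // ¬ H2 H w d s₀} =
      ((univ : Finset (Fin m → Half n k)).filter fun H => ¬ H2 H w d s₀).card := by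
    rw [Nat.card_eq_fintype_card, Fintype.card_subtype]
  rw [hnc, hcard]
  have h2n : (2 : ℝ) ^ ((n : ℝ) + 1) = (2 : ℝ) ^ (n + 1) := by
    rw [← Real.rpow_natCast 2 (n + 1)]
    push_cast
    rfl
  have hfin : ((2 ^ (n + 1) * ((univ : Finset (Fin m → Half n k)).filter
      fun H => ¬ H2 H w d s₀).card : ℕ) : ℝ) ≤ ((S ^ m : ℕ) : ℝ) := by
    push_cast
    have h3 : (0 : ℝ) ≤ (S : ℝ) ^ m := by positivity
    calc (2 : ℝ) ^ (n + 1) * (((univ : Finset (Fin m → Half n k)).filter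
          fun H => ¬ H2 H w d s₀).card : ℝ)
        ≤ (2 : ℝ) ^ (n + 1) * ((((univ : Finset (Finset (Fin n) × (Fin n → Bool))).filter
          fun p => p.1.card ≤ w + k).card : ℝ) * (m.choose (s₀ + 1)) *
            (ρ ^ (s₀ + 1) * (S : ℝ) ^ m)) :=
          mul_le_mul_of_nonneg_left hb (by positivity)
      _ = ((2 : ℝ) ^ ((n : ℝ) + 1) * (((univ : Finset (Finset (Fin n) × (Fin n → Bool))).filter
            fun p => p.1.card ≤ w + k).card * (m.choose (s₀ + 1)) * ρ ^ (s₀ + 1))) *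
              (S : ℝ) ^ m := by
          rw [h2n]
          ring
      _ ≤ 1 * (S : ℝ) ^ m := mul_le_mul_of_nonneg_right hkey h3
      _ = (S : ℝ) ^ m := one_mul _
  exact_mod_cast hfin

end Pool.Agent.H48.FLC
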